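import Pool.Agent.Helper2.AV.MB
import Pool.Agent.Helper55.AV.DAb
import Pool.Agent.Helper2.AV.TDefs

/-!
MP_b8862a_ag, AllTypes, block TY: operators commuting with the Lie algebra between different
blocks vanish; the form of a self dual block; no invariant forms in a block which is not self
dual; no linked intertwiners or pairings between different classes of blocks.
-/

set_option linter.unusedSectionVars false

open Module

namespace AV

open MTP UN

section TY
variable {K : Type*} [Field K] [IsAlgClosed K] [CharZero K] {V : Type*} [AddCommGroup V]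
  [Module K V] [FiniteDimensional K V]
  {ω : LinearMap.BilinForm K V} {G : Set (Module.End K V)}
  {T : Set (Module.End K V ≃+* Module.End K V)} {p0 ε ε₁ ε₂ : Module.End K V}
  {W : Submodule K V}

namespace TY

omit [IsAlgClosed K] [CharZero K] in
/-- The operator attached to a pairing. -/
lemma exists_op (hω : ω.Nondegenerate) (B : V →ₗ[K] V →ₗ[K] K) :
    ∃ F : Module.End K V, ∀ w v, ω (F w) v = B w v := by
  have hinj : Function.Injective (ω : V →ₗ[K] V →ₗ[K] K) := by
    rw [← LinearMap.ker_eq_bot, LinearMap.ker_eq_bot']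
    intro m hm
    apply hω.1
    intro v
    rw [hm]; rfl
  have hsur : Function.Surjective (ω : V →ₗ[K] V →ₗ[K] K) :=
    (LinearMap.injective_iff_surjective_of_finrank_eq_finrank
      (Subspace.dual_finrank_eq (K := K) (V := V)).symm).mp hinj
  let e : V ≃ₗ[K] (V →ₗ[K] K) := LinearEquiv.ofBijective ω ⟨hinj, hsur⟩
  refine ⟨(e.symm : (V →ₗ[K] K) →ₗ[K] V) ∘ₗ B, ?_⟩
  intro w v
  have h1 : e (e.symm (B w)) = B w := e.apply_symm_apply _
  exact LinearMap.congr_fun h1 v

omit [IsAlgClosed K] [CharZero K] [FiniteDimensional K V] in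
lemma ext_nd (hω : ω.Nondegenerate) {x y : V} (h : ∀ v, ω x v = ω y v) : x = y := by
  rw [← sub_eq_zero]
  apply hω.1
  intro v
  rw [map_sub, LinearMap.sub_apply, h, sub_self]

omit [IsAlgClosed K] [CharZero K] in
lemma Ae_of {A : Subalgebra K (Module.End K V)} (hε : Bl A ε) {a : Module.End K V} (ha : a ∈ A) :
    a * ε ∈ Ae A ε := ⟨A.mul_mem ha hε.mem, by rw [mul_assoc, hε.idem]⟩

omit [IsAlgClosed K] [CharZero K] in
/-- On a subspace in the block the operator `a ε` is `a`. -/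
lemma Rw_mul {A : Subalgebra K (Module.End K V)} (hW : Irr (A : Set (Module.End K V)) W)
    (hWε : InB ε W) {a : Module.End K V} (ha : a ∈ A) (haε : a * ε ∈ A) (w : W) :
    ((Rw W (a * ε) w : W) : V) = a w := by
  rw [Rw_coe (hW.st _ haε)]
  rw [Module.End.mul_apply, hWε _ w.2]

omit [IsAlgClosed K] in
/-- Operators commuting with the Lie algebra: the commutator with `p`. -/
lemma comm_p (D : MStr ω G T p0) (h1 : Bl (AA G T p0) ε₁) (h2 : Bl (AA G T p0) ε₂)
    {F : Module.End K V} (hF1 : F * ε₁ = F) (hF2 : ε₂ * F = F)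
    (hc : ∀ x ∈ ML G T p0, F * x = x * F) {p : Module.End K V} (hp : p ∈ SC G T p0) :
    ∃ d : K, F * p - p * F = d • F := by
  have hx := hc _ (D.nzb_mem hp)
  have hA := D.ml_mem (D.nzb_mem hp)
  have hpA := D.sc_mem hp
  refine ⟨LinearMap.trace K V (p * ε₁) / LinearMap.trace K V ε₁ -
    LinearMap.trace K V (p * ε₂) / LinearMap.trace K V ε₂, ?_⟩
  set c₁ := LinearMap.trace K V (p * ε₁) / LinearMap.trace K V ε₁
  set c₂ := LinearMap.trace K V (p * ε₂) / LinearMap.trace K V ε₂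
  have e1 : F * nzb (AA G T p0) p = F * p - c₁ • F := by
    calc F * nzb (AA G T p0) p = F * ε₁ * nzb (AA G T p0) p := by rw [hF1]
      _ = F * (nzb (AA G T p0) p * ε₁) := by rw [mul_assoc, h1.cen _ hA]
      _ = F * ((p - c₁ • 1) * ε₁) := by rw [D.nzb_mul p h1]
      _ = F * ε₁ * p - c₁ • (F * ε₁) := by
          rw [sub_mul, smul_mul_assoc, one_mul, mul_sub, mul_smul_comm, ← h1.cen _ hpA,
            ← mul_assoc]
      _ = _ := by rw [hF1]
  have e2 : nzb (AA G T p0) p * F = p * F - c₂ • F := by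
    calc nzb (AA G T p0) p * F = nzb (AA G T p0) p * ε₂ * F := by rw [mul_assoc, hF2]
      _ = (p - c₂ • 1) * ε₂ * F := by rw [D.nzb_mul p h2]
      _ = p * (ε₂ * F) - c₂ • (ε₂ * F) := by
          rw [sub_mul, smul_mul_assoc, one_mul, sub_mul, smul_mul_assoc, mul_assoc]
      _ = _ := by rw [hF2]
  rw [e1, e2] at hx
  rw [sub_smul, sub_eq_sub_iff_add_eq_add]
  rw [sub_eq_sub_iff_add_eq_add] at hx
  calc F * p + c₂ • F = p * F + c₁ • F := hx
    _ = _ := by abel

end TY

open TY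

/-- IT: operators commuting with the Lie algebra between different blocks vanish. -/
theorem MStr.it (D : MStr ω G T p0) (h1 : Bl (AA G T p0) ε₁) (h2 : Bl (AA G T p0) ε₂)
    (hne : ε₁ ≠ ε₂) (hns : ∀ p ∈ SC G T p0, p * ε₁ ≠ 0 ∧ p * ε₁ ≠ ε₁)
    {F : Module.End K V} (hF1 : F * ε₁ = F) (hF2 : ε₂ * F = F)
    (hc : ∀ x ∈ ML G T p0, F * x = x * F) : F = 0 := by
  by_contra hF0
  have h3 : ∃ W, Irr (AA G T p0 : Set (Module.End K V)) W ∧ ∃ w ∈ W, F w ≠ 0 := by
    by_contra hcon
    push Not at hcon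
    exact hF0 (SS.eq_zero_of_irr D.ssA hcon)
  obtain ⟨W, hW, w₀, hw₀, hFw⟩ := h3
  obtain ⟨ε, hε, hWε⟩ := hW.exists_bl
  have hεε : ε = ε₁ := by
    by_contra hne'
    apply hFw
    rw [← hF1, Module.End.mul_apply, ← hWε _ hw₀, ← Module.End.mul_apply ε₁ ε,
      Bl.orth h1 hε (Ne.symm hne'), LinearMap.zero_apply, map_zero]
  subst hεε
  have hker : ∀ w ∈ W, F w = 0 → w = 0 := by
    have hst : Stab (AA G T p0 : Set (Module.End K V)) (W ⊓ LinearMap.ker F) := by
      refine D.ml_stab h1 (fun w hw => hWε w hw.1) ?_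
      rintro x hx v ⟨hv, hv'⟩
      refine ⟨hW.st _ (D.ml_mem hx) v hv, ?_⟩
      have hv'' : F v = 0 := hv'
      change F (x v) = 0
      rw [← Module.End.mul_apply, hc x hx, Module.End.mul_apply, hv'', map_zero]
    rcases hW.irr _ inf_le_left hst with h | h
    · intro w hw hw'
      have : w ∈ W ⊓ LinearMap.ker F := ⟨hw, hw'⟩
      rw [h] at this
      simpa using this
    · exfalso
      apply hFw
      have : w₀ ∈ W ⊓ LinearMap.ker F := by rw [h]; exact hw₀
      exact this.2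
  have hR := SS.rs D.ssA h1 hW hWε
  have hcp : ∀ p ∈ SC G T p0, F * p = p * F := by
    intro p hp
    obtain ⟨d, hd⟩ := comm_p D h1 h2 hF1 hF2 hc hp
    have hpA := D.sc_mem hp
    have hpp := D.c1 hp
    have hpε := Ae_of h1 hpA
    have hd' : ∀ v, F (p v) - p (F v) = d • F v := fun v => LinearMap.congr_fun hd v
    have hppv : ∀ v, p (p v) = p v := fun v => LinearMap.congr_fun hpp v
    have hd0 : d = 0 := by
      obtain ⟨hp0, hp1⟩ := hns p hp
      have ha : ∃ w ∈ W, w ≠ 0 ∧ p w = w := by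
        by_contra hcon
        push Not at hcon
        apply hp0
        apply hR.inj _ hpε
        apply LinearMap.ext
        intro w
        apply Subtype.ext
        rw [Rw_mul hW hWε hpA hpε.1]
        by_contra hne2
        exact hcon (p w) (hW.st _ hpA _ w.2) hne2 (hppv _)
      have hb : ∃ w ∈ W, w ≠ 0 ∧ p w = 0 := by
        by_contra hcon
        push Not at hcon
        apply hp1
        rw [← sub_eq_zero]
        have hmem : p * ε - ε ∈ Ae (AA G T p0) ε := by
          refine ⟨(AA G T p0).sub_mem hpε.1 h1.mem, ?_⟩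
          rw [sub_mul, hpε.2, h1.idem]
        apply hR.inj _ hmem
        apply LinearMap.ext
        intro w
        apply Subtype.ext
        rw [Rw_coe (hW.st _ hmem.1), LinearMap.sub_apply, Module.End.mul_apply, hWε _ w.2]
        by_contra hne2
        refine hcon (p w - w) (W.sub_mem (hW.st _ hpA _ w.2) w.2) hne2 ?_
        rw [map_sub, hppv, sub_self]
      obtain ⟨w₁, hw₁, hw₁0, hpw₁⟩ := ha
      obtain ⟨w₂, hw₂, hw₂0, hpw₂⟩ := hb
      have hF₁ : F w₁ ≠ 0 := fun h => hw₁0 (hker _ hw₁ h)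
      have hF₂ : F w₂ ≠ 0 := fun h => hw₂0 (hker _ hw₂ h)
      have e1 : p (F w₁) = (1 - d) • F w₁ := by
        have := hd' w₁
        rw [hpw₁] at this
        rw [sub_smul, one_smul, ← this]; abel
      have e2 : p (F w₂) = (-d) • F w₂ := by
        have := hd' w₂
        rw [hpw₂, map_zero, zero_sub] at this
        rw [neg_smul, ← this, neg_neg]
      have e3 : (1 - d) * (1 - d) = 1 - d := by
        have h4 := hppv (F w₁)
        rw [e1, map_smul, e1, smul_smul] at h4
        exact smul_left_injective K hF₁ h4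
      have e4 : (-d) * (-d) = -d := by
        have h4 := hppv (F w₂)
        rw [e2, map_smul, e2, smul_smul] at h4
        exact smul_left_injective K hF₂ h4
      have e5 : (2 : K) * d = 0 := by linear_combination e4 - e3
      rcases mul_eq_zero.mp e5 with h | h
      · exact absurd h two_ne_zero
      · exact h
    rw [hd0, zero_smul, sub_eq_zero] at hd
    exact hd
  have hcA : ∀ a ∈ AA G T p0, F * a = a * F := by
    intro a ha
    refine Algebra.adjoin_induction (p := fun a _ => F * a = a * F) ?_ ?_ ?_ ?_ ha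
    · intro x hx; exact hcp x hx
    · intro r; exact (Algebra.commutes r F).symm
    · intro x y _ _ hx hy; rw [mul_add, add_mul, hx, hy]
    · intro x y _ _ hx hy; rw [← mul_assoc, hx, mul_assoc, hy, mul_assoc]
  apply hF0
  calc F = ε₂ * (F * ε) := by rw [hF1, hF2]
    _ = ε₂ * (ε * F) := by rw [hcA _ h1.mem]
    _ = (ε₂ * ε) * F := by rw [mul_assoc]
    _ = 0 := by rw [Bl.orth h2 h1 (Ne.symm hne), zero_mul]

/-- TY1: the form of a self dual block. -/
theorem MStr.sd_form (D : MStr ω G T p0) (hε : Bl (AA G T p0) ε) (hsd : SD ω ε)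
    (hW : Irr (AA G T p0 : Set (Module.End K V)) W) (hWε : InB ε W) :
    ∃ b : LinearMap.BilinForm K W, Fm ω (AA G T p0) ε W b ∧
      ((∀ v w, b v w = b w v) ∨ b.IsAlt) := by
  have hR := SS.rs D.ssA hε hW hWε
  -- an irreducible subspace paired with `W`
  obtain ⟨w₀, hw₀, hw₀0⟩ := W.ne_bot_iff.mp hW.ne
  have h1 : ∃ v, ω w₀ v ≠ 0 := by
    by_contra hcon
    push Not at hcon
    exact hw₀0 (D.nd.1 _ hcon)
  obtain ⟨v₀, hv₀⟩ := h1
  have h2 : ∃ W', Irr (AA G T p0 : Set (Module.End K V)) W' ∧ ∃ w' ∈ W', ω w₀ w' ≠ 0 := by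
    by_contra hcon
    push Not at hcon
    have h3 : (LinearMap.toSpanSingleton K V w₀) ∘ₗ (ω w₀) = 0 := by
      apply SS.eq_zero_of_irr D.ssA
      intro W' hW' w hw
      rw [LinearMap.comp_apply, hcon W' hW' w hw, map_zero]
    have h4 := LinearMap.congr_fun h3 v₀
    rw [LinearMap.comp_apply, LinearMap.toSpanSingleton_apply, LinearMap.zero_apply] at h4
    exact (smul_ne_zero hv₀ hw₀0) h4
  obtain ⟨W', hW', w₁, hw₁, hw₀₁⟩ := h2
  obtain ⟨ε', hε', hWε'⟩ := hW'.exists_bl
  have hεε : ε = ε' := by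
    by_contra hne'
    apply hw₀₁
    rw [← hWε _ hw₀, hsd, ← hWε' _ hw₁, ← Module.End.mul_apply, Bl.orth hε hε' hne']
    simp
  subst hεε
  obtain ⟨S, hSc, hSm, hS0, hSs⟩ := SS.exists_iso D.ssA hε hW hWε hW' hWε'
  let b : LinearMap.BilinForm K W := (ω.compl₁₂ W.subtype (S ∘ₗ W.subtype))
  have hb : ∀ v w : W, b v w = ω v (S w) := fun v w => rfl
  have hadj : ∀ x ∈ AA G T p0, ∀ x' ∈ AA G T p0, IsAdj ω x x' → IsAdj b (Rw W x) (Rw W x') := by
    intro x hx x' hx' h v w
    rw [hb, hb, Rw_coe (hW.st _ hx), Rw_coe (hW.st _ hx'), h, ← Module.End.mul_apply,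
      ← Module.End.mul_apply, hSc _ hx']
  have hleft : ∀ v : W, (∀ w, b v w = 0) → v = 0 := by
    let U : Submodule K V := (LinearMap.ker b).map W.subtype
    have hU : Stab (AA G T p0 : Set (Module.End K V)) U := by
      rintro a ha _ ⟨u, hu, rfl⟩
      obtain ⟨a', ha', haa, -⟩ := D.exists_adj ha
      refine ⟨Rw W a u, ?_, Rw_coe (hW.st _ ha) u⟩
      rw [SetLike.mem_coe, LinearMap.mem_ker] at hu ⊢
      apply LinearMap.ext
      intro w
      rw [hadj a ha a' ha' haa, hu]; rfl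
    have hUW : U ≤ W := by
      rintro _ ⟨u, hu, rfl⟩
      exact u.2
    rcases hW.irr U hUW hU with h | h
    · intro v hv
      have : (v : V) ∈ U := ⟨v, by
        rw [SetLike.mem_coe, LinearMap.mem_ker]; exact LinearMap.ext hv, rfl⟩
      rw [h] at this
      exact Subtype.ext (by simpa using this)
    · exfalso
      have h5 : w₀ ∈ U := by rw [h]; exact hw₀
      obtain ⟨u, hu, hu'⟩ := h5
      obtain ⟨w₂, hw₂, hw₂'⟩ := hSs w₁ hw₁
      apply hw₀₁
      rw [← hu', ← hw₂']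
      rw [SetLike.mem_coe, LinearMap.mem_ker] at hu
      exact LinearMap.congr_fun hu ⟨w₂, hw₂⟩
  have hnd : b.Nondegenerate := LinearMap.BilinForm.Nondegenerate.ofSeparatingLeft hleft
  refine ⟨b, ⟨hnd, hadj, ?_⟩, ?_⟩
  · intro x hx hxε
    constructor
    · intro h v w
      have h5 := hadj x hx (-x) ((AA G T p0).neg_mem hx) (IsAdj.of_sk h) v w
      rw [h5, map_neg, LinearMap.neg_apply, map_neg]
    · intro h
      obtain ⟨x', hx', hxx, -⟩ := D.exists_adj hx
      have h5 : IsAdj b (Rw W x) (Rw W x') := hadj x hx x' hx' hxx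
      have h6 : Rw W x' = - Rw W x := IsAdj.unique hnd h5 (IsAdj.of_sk h)
      have h7 : x' * ε = x' := by
        have h8 : IsAdj ω (x * ε) (ε * x') := hxx.mul hsd
        rw [hxε] at h8
        rw [← hε.cen _ hx']
        exact IsAdj.unique D.nd h8 hxx
      have h8 : x' + x ∈ Ae (AA G T p0) ε := ⟨(AA G T p0).add_mem hx' hx, by
        rw [add_mul, h7, hxε]⟩
      have h9 : x' + x = 0 := by
        apply hR.inj _ h8
        rw [map_add, h6, neg_add_cancel]
      have h10 : x' = -x := eq_neg_of_add_eq_zero_left h9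
      intro v w
      rw [hxx, h10, LinearMap.neg_apply, map_neg]
  · -- symmetric or alternating
    obtain ⟨φ, hφ⟩ := TY.exists_op (V := W) hnd b.flip
    have hφ' : ∀ v w, b (φ v) w = b w v := fun v w => hφ v w
    have hcomm : ∀ x ∈ AA G T p0, ∀ v, φ (Rw W x v) = Rw W x (φ v) := by
      intro x hx v
      obtain ⟨x', hx', hxx, hxx'⟩ := D.exists_adj hx
      apply ext_nd hnd
      intro w
      rw [hφ', ← hadj x' hx' x hx hxx', ← hφ', hadj x hx x' hx' hxx]
    have hntW : Nontrivial W := Submodule.nontrivial_iff_ne_bot.mpr hW.ne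
    obtain ⟨c, hc⟩ := Module.End.exists_eigenvalue φ
    have hφc : ∀ v, φ v = c • v := by
      let U : Submodule K V := (Module.End.eigenspace φ c).map W.subtype
      have hU : Stab (AA G T p0 : Set (Module.End K V)) U := by
        rintro a ha _ ⟨u, hu, rfl⟩
        refine ⟨Rw W a u, ?_, Rw_coe (hW.st _ ha) u⟩
        rw [SetLike.mem_coe, Module.End.mem_eigenspace_iff] at hu ⊢
        rw [hcomm a ha, hu, map_smul]
      have hUW : U ≤ W := by
        rintro _ ⟨u, hu, rfl⟩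
        exact u.2
      rcases hW.irr U hUW hU with h | h
      · exfalso
        obtain ⟨u, hu⟩ := hc.exists_hasEigenvector
        have : (u : V) ∈ U := ⟨u, hu.1, rfl⟩
        rw [h] at this
        exact hu.2 (Subtype.ext (by simpa using this))
      · intro v
        have : (v : V) ∈ U := by rw [h]; exact v.2
        obtain ⟨u, hu, hu'⟩ := this
        have : u = v := Subtype.ext hu'
        subst this
        rwa [SetLike.mem_coe, Module.End.mem_eigenspace_iff] at hu
    have hbc : ∀ v w, b w v = c * b v w := by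
      intro v w
      rw [← hφ', hφc, map_smul, LinearMap.smul_apply, smul_eq_mul]
    have hb0 : ∃ v w, b v w ≠ 0 := by
      by_contra hcon
      push Not at hcon
      have := hleft ⟨w₀, hw₀⟩ (hcon _)
      exact hw₀0 (congrArg Subtype.val this)
    obtain ⟨v, w, hvw⟩ := hb0
    have h5 : c * (c * b v w) = b v w := by rw [← hbc v w, ← hbc w v]
    have h6 : (c - 1) * (c + 1) = 0 := by
      have h7 : ((c - 1) * (c + 1)) * b v w = 0 := by linear_combination h5
      exact (mul_eq_zero.mp h7).resolve_right hvw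
    rcases mul_eq_zero.mp h6 with h | h
    · left
      intro x y
      rw [hbc y x, sub_eq_zero.mp h, one_mul]
    · right
      intro x
      have h7 := hbc x x
      rw [eq_neg_of_add_eq_zero_left h] at h7
      have h8 : (2 : K) * b x x = 0 := by linear_combination h7
      exact (mul_eq_zero.mp h8).resolve_left two_ne_zero

namespace TY

omit [IsAlgClosed K] [CharZero K] in
/-- The equivariant projection to an irreducible subspace of a block. -/
lemma exists_pr {A : Subalgebra K (Module.End K V)} (h : SS (A : Set (Module.End K V)))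
    (hε : Bl A ε) (hW : Irr (A : Set (Module.End K V)) W) (hWε : InB ε W) :
    ∃ q : V →ₗ[K] W, (∀ w : W, q w = w) ∧ (∀ v, q (ε v) = q v) ∧
      ∀ a ∈ A, ∀ v, q (a v) = Rw W (a * ε) (q v) := by
  obtain ⟨P, hP, hP1, hP2⟩ := SS.exists_prj h hW.st
  have hPv : ∀ a ∈ A, ∀ v, P (a v) = a (P v) := fun a ha v => LinearMap.congr_fun (hP a ha) v
  refine ⟨LinearMap.codRestrict W P hP2, ?_, ?_, ?_⟩
  · intro w
    apply Subtype.ext
    rw [LinearMap.codRestrict_apply, hP1 _ w.2]
  · intro v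
    apply Subtype.ext
    rw [LinearMap.codRestrict_apply, LinearMap.codRestrict_apply, hPv _ hε.mem, hWε _ (hP2 v)]
  · intro a ha v
    apply Subtype.ext
    rw [LinearMap.codRestrict_apply, Rw_mul hW hWε ha (A.mul_mem ha hε.mem),
      LinearMap.codRestrict_apply, hPv a ha]

/-- The general form of `nsd_form` and `no_pair`. -/
lemma pair_zero (D : MStr ω G T p0) (h1 : Bl (AA G T p0) ε₁) (h2 : Bl (AA G T p0) ε₂)
    (hne : ¬ IsAdj ω ε₁ ε₂) (hns : ∀ p ∈ SC G T p0, p * ε₁ ≠ 0 ∧ p * ε₁ ≠ ε₁)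
    {W₁ W₂ : Submodule K V}
    (hW1 : Irr (AA G T p0 : Set (Module.End K V)) W₁) (hWε1 : InB ε₁ W₁)
    (hW2 : Irr (AA G T p0 : Set (Module.End K V)) W₂) (hWε2 : InB ε₂ W₂)
    (b : W₁ →ₗ[K] W₂ →ₗ[K] K)
    (hb : ∀ x ∈ ML G T p0, ∀ v w, b (Rw W₁ (x * ε₁) v) w = - b v (Rw W₂ (x * ε₂) w)) :
    b = 0 := by
  obtain ⟨ε', hε', hadj, hadj'⟩ := D.adj_bl h2
  have hne' : ε₁ ≠ ε' := by
    rintro rfl
    exact hne hadj'
  obtain ⟨q₁, hq1, hq1ε, hq1a⟩ := exists_pr D.ssA h1 hW1 hWε1
  obtain ⟨q₂, hq2, hq2ε, hq2a⟩ := exists_pr D.ssA h2 hW2 hWε2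
  obtain ⟨F, hF⟩ := exists_op D.nd (b.compl₁₂ q₁ q₂)
  have hF' : ∀ v w, ω (F v) w = b (q₁ v) (q₂ w) := hF
  have hF1 : F * ε₁ = F := by
    apply LinearMap.ext
    intro v
    apply ext_nd D.nd
    intro w
    rw [Module.End.mul_apply, hF', hF', hq1ε]
  have hF2 : ε' * F = F := by
    apply LinearMap.ext
    intro v
    apply ext_nd D.nd
    intro w
    rw [Module.End.mul_apply, hadj', hF', hF', hq2ε]
  have hc : ∀ x ∈ ML G T p0, F * x = x * F := by
    intro x hx
    have hxA := D.ml_mem hx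
    apply LinearMap.ext
    intro v
    apply ext_nd D.nd
    intro w
    rw [Module.End.mul_apply, Module.End.mul_apply, hF', hq1a x hxA, hb x hx, ← hq2a x hxA, ← hF']
    exact (D.ml_sk hx (F v) w).symm
  have hF0 := D.it h1 hε' hne' hns hF1 hF2 hc
  apply LinearMap.ext
  intro v
  apply LinearMap.ext
  intro w
  have h3 := hF' v w
  rw [hq1, hq2, hF0, LinearMap.zero_apply, map_zero] at h3
  rw [← h3]
  rfl

end TY

/-- TY2: there is no invariant form in a block which is not self dual. -/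
theorem MStr.nsd_form (D : MStr ω G T p0) (hε : Bl (AA G T p0) ε) (hsd : ¬ SD ω ε)
    (hns : ∀ p ∈ SC G T p0, p * ε ≠ 0 ∧ p * ε ≠ ε)
    (hW : Irr (AA G T p0 : Set (Module.End K V)) W) (hWε : InB ε W)
    (b : LinearMap.BilinForm K W) (hb : ∀ x ∈ Lb G T p0 ε, IsSk b (Rw W x)) : b = 0 :=
  TY.pair_zero D hε hε hsd hns hW hWε hW hWε b fun x hx v w =>
    hb (x * ε) ⟨x, hx, rfl⟩ v w

/-- TY3: no linked intertwiners between different blocks. -/
theorem MStr.no_iso (D : MStr ω G T p0) (h1 : Bl (AA G T p0) ε₁) (h2 : Bl (AA G T p0) ε₂)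
    (hne : ε₁ ≠ ε₂) (hns : ∀ p ∈ SC G T p0, p * ε₁ ≠ 0 ∧ p * ε₁ ≠ ε₁) {W₁ W₂ : Submodule K V}
    (hW1 : Irr (AA G T p0 : Set (Module.End K V)) W₁) (hWε1 : InB ε₁ W₁)
    (hW2 : Irr (AA G T p0 : Set (Module.End K V)) W₂) (hWε2 : InB ε₂ W₂)
    (f : W₁ →ₗ[K] W₂) (hf : ∀ x ∈ ML G T p0, ∀ v, f (Rw W₁ (x * ε₁) v) = Rw W₂ (x * ε₂) (f v)) :
    f = 0 := by
  obtain ⟨q, hq, hqε, hqa⟩ := TY.exists_pr D.ssA h1 hW1 hWε1
  have hF1 : (W₂.subtype ∘ₗ f ∘ₗ q) * ε₁ = W₂.subtype ∘ₗ f ∘ₗ q := by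
    apply LinearMap.ext
    intro v
    rw [Module.End.mul_apply, LinearMap.comp_apply, LinearMap.comp_apply, hqε]
    rfl
  have hF2 : ε₂ * (W₂.subtype ∘ₗ f ∘ₗ q) = W₂.subtype ∘ₗ f ∘ₗ q := by
    apply LinearMap.ext
    intro v
    rw [Module.End.mul_apply, LinearMap.comp_apply, LinearMap.comp_apply]
    exact hWε2 _ (f (q v)).2
  have hc : ∀ x ∈ ML G T p0, (W₂.subtype ∘ₗ f ∘ₗ q) * x = x * (W₂.subtype ∘ₗ f ∘ₗ q) := by
    intro x hx
    have hxA := D.ml_mem hx
    apply LinearMap.ext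
    intro v
    rw [Module.End.mul_apply, Module.End.mul_apply, LinearMap.comp_apply, LinearMap.comp_apply,
      hqa x hxA, hf x hx]
    exact TY.Rw_mul hW2 hWε2 hxA ((AA G T p0).mul_mem hxA h2.mem) (f (q v))
  have hF0 := D.it h1 h2 hne hns hF1 hF2 hc
  apply LinearMap.ext
  intro w
  apply Subtype.ext
  have h3 := LinearMap.congr_fun hF0 (w : V)
  rw [LinearMap.comp_apply, LinearMap.comp_apply, hq, LinearMap.zero_apply] at h3
  exact h3

/-- TY4: no linked pairings between blocks which are not adjoint. -/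
theorem MStr.no_pair (D : MStr ω G T p0) (h1 : Bl (AA G T p0) ε₁) (h2 : Bl (AA G T p0) ε₂)
    (hne : ¬ IsAdj ω ε₁ ε₂) (hns : ∀ p ∈ SC G T p0, p * ε₁ ≠ 0 ∧ p * ε₁ ≠ ε₁)
    {W₁ W₂ : Submodule K V}
    (hW1 : Irr (AA G T p0 : Set (Module.End K V)) W₁) (hWε1 : InB ε₁ W₁)
    (hW2 : Irr (AA G T p0 : Set (Module.End K V)) W₂) (hWε2 : InB ε₂ W₂)
    (b : W₁ →ₗ[K] W₂ →ₗ[K] K)
    (hb : ∀ x ∈ ML G T p0, ∀ v w, b (Rw W₁ (x * ε₁) v) w = - b v (Rw W₂ (x * ε₂) w)) :
    b = 0 :=
  TY.pair_zero D h1 h2 hne hns hW1 hWε1 hW2 hWε2 b hb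

end TY

end AV
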